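import Mathlib

set_option autoImplicit false

namespace Pool.Q21.MU

open Filter Topology RestrictedProduct

/-- the data of finite groups with isotropic subgroups -/
structure Data where
  ι : Type
  K : ι → Type
  grp : ∀ i, CommGroup (K i)
  top : ∀ i, TopologicalSpace (K i)
  disc : ∀ i, DiscreteTopology (K i)
  fin : ∀ i, Finite (K i)
  L : ∀ i, Subgroup (K i)
  β : ∀ i, K i →* K i →* Circle
  alt : ∀ i x, β i x x = 1
  iso : ∀ i, ∀ x ∈ L i, ∀ y ∈ L i, β i x y = 1
  nondeg : ∀ i x, (∀ y, (β i x y) ^ 2 = 1) → x = 1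
  perp : ∀ i x, (∀ y ∈ L i, (β i x y) ^ 2 = 1) → x ∈ L i
  surj : ∀ i, ∀ χ : K i →* Circle, ∃ x, ∀ y, χ y = (β i x y) ^ 2
  inf : Infinite ι
  e : ι → ℕ
  cop : ∀ i j, i ≠ j → Nat.Coprime (e i) (e j)
  tors : ∀ i, ∀ x : K i, x ^ (e i) = 1
  nonsplit : ∀ i, ∀ π : K i →* K i, (∀ x ∈ L i, π x ∈ L i) → (∀ x, π (π x) = π x) →
    (∀ x y, (β i (π x) (π y)) ^ 2 = 1) → (∀ x y, (β i (x / π x) (y / π y)) ^ 2 = 1) → False

attribute [instance] Data.grp Data.top Data.disc Data.fin

variable (D : Data)

instance : Fact (∀ i, IsOpen (D.L i : Set (D.K i))) := ⟨fun _ => isOpen_discrete _⟩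

/-- the restricted product -/
abbrev RP := Πʳ i, [D.K i, D.L i]

example : CommGroup (RP D) := inferInstance
example : IsTopologicalGroup (RP D) := inferInstance
example : T2Space (RP D) := inferInstance
example : LocallyCompactSpace (RP D) := inferInstance

variable {D}

/-- the pairing -/
noncomputable def pr (x y : RP D) : Circle := ∏ᶠ i, D.β i (x i) (y i)

theorem pr_supp (x y : RP D) : (Function.mulSupport fun i => D.β i (x i) (y i)).Finite := by
  have h1 := x.2
  have h2 := y.2
  rw [Filter.eventually_cofinite] at h1 h2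
  refine (h1.union h2).subset (fun i hi => ?_)
  by_contra hc
  rw [Set.mem_union, not_or] at hc
  obtain ⟨hc1, hc2⟩ := hc
  simp only [Set.mem_ofPred_eq, not_not] at hc1 hc2
  exact hi (D.iso i _ hc1 _ hc2)

theorem pr_mul_left (x x' y : RP D) : pr (x * x') y = pr x y * pr x' y := by
  unfold pr
  rw [← finprod_mul_distrib (pr_supp x y) (pr_supp x' y)]
  refine finprod_congr (fun i => ?_)
  rw [RestrictedProduct.mul_apply, map_mul, MonoidHom.mul_apply]

theorem pr_mul_right (x y y' : RP D) : pr x (y * y') = pr x y * pr x y' := by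
  unfold pr
  rw [← finprod_mul_distrib (pr_supp x y) (pr_supp x y')]
  refine finprod_congr (fun i => ?_)
  rw [RestrictedProduct.mul_apply, map_mul]

theorem pr_self (x : RP D) : pr x x = 1 := by
  unfold pr
  rw [finprod_eq_one_of_forall_eq_one]
  intro i
  exact D.alt i (x i)

theorem pr_one_left (y : RP D) : pr 1 y = 1 := by
  have := pr_mul_left 1 1 y
  rw [one_mul] at this
  exact (left_eq_mul.1 this)

theorem pr_one_right (x : RP D) : pr x 1 = 1 := by
  have := pr_mul_right x 1 1
  rw [one_mul] at this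
  exact (left_eq_mul.1 this)

theorem pr_swap (x y : RP D) : pr x y * pr y x = 1 := by
  have h := pr_self (x * y)
  rw [pr_mul_left, pr_mul_right, pr_mul_right, pr_self, pr_self, one_mul, mul_one] at h
  exact h

/-- basic open neighbourhoods -/
theorem isOpen_basic (S : Set D.ι) (hS : S.Finite) (x0 : RP D) :
    IsOpen {x : RP D | (∀ i ∈ S, x i = x0 i) ∧ ∀ i, i ∉ S → x i ∈ D.L i} := by
  have h1 : IsOpen {x : RP D | ∀ i, i ∉ S → x.1 i ∈ (D.L i : Set (D.K i))} :=
    RestrictedProduct.isOpen_forall_imp_mem (fun i => isOpen_discrete _)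
  have h2 : IsOpen {x : RP D | ∀ i ∈ S, x i = x0 i} := by
    have : {x : RP D | ∀ i ∈ S, x i = x0 i} = ⋂ i ∈ S, (fun x : RP D => x i) ⁻¹' {x0 i} := by
      ext x; simp
    rw [this]
    exact hS.isOpen_biInter (fun i _ => (isOpen_discrete _).preimage (RestrictedProduct.continuous_eval i))
  exact h2.inter h1

theorem pr_continuous : Continuous (fun z : RP D × RP D => pr z.1 z.2) := by
  rw [continuous_iff_continuousAt]
  rintro ⟨x0, y0⟩
  have h1 := x0.2
  have h2 := y0.2
  rw [Filter.eventually_cofinite] at h1 h2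
  set S : Set D.ι := {i | ¬ x0.1 i ∈ (D.L i : Set (D.K i))} ∪ {i | ¬ y0.1 i ∈ (D.L i : Set (D.K i))} with hS
  have hSf : S.Finite := h1.union h2
  have hx0 : ∀ i, i ∉ S → x0 i ∈ D.L i := by
    intro i hi
    by_contra hc
    exact hi (Or.inl hc)
  have hy0 : ∀ i, i ∉ S → y0 i ∈ D.L i := by
    intro i hi
    by_contra hc
    exact hi (Or.inr hc)
  have hev : ∀ᶠ z : RP D × RP D in 𝓝 (x0, y0), pr z.1 z.2 = pr x0 y0 := by
    have hU := (isOpen_basic S hSf x0).prod (isOpen_basic S hSf y0)
    filter_upwards [hU.mem_nhds ⟨⟨fun i _ => rfl, hx0⟩, ⟨fun i _ => rfl, hy0⟩⟩] with z hz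
    unfold pr
    refine finprod_congr (fun i => ?_)
    by_cases hi : i ∈ S
    · rw [hz.1.1 i hi, hz.2.1 i hi]
    · rw [D.iso i _ (hz.1.2 i hi) _ (hz.2.2 i hi), D.iso i _ (hx0 i hi) _ (hy0 i hi)]
  exact (continuousAt_const (y := pr x0 y0)).congr (hev.mono fun z hz => hz.symm)

open scoped Classical in
/-- an element with one nontrivial coordinate -/
noncomputable def sg (i : D.ι) (a : D.K i) : RP D := RestrictedProduct.mulSingle (fun i => D.L i) i a

theorem sg_same (i : D.ι) (a : D.K i) : sg i a i = a := by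
  classical
  exact RestrictedProduct.mulSingle_eq_same _ _ a

theorem sg_ne (i j : D.ι) (a : D.K i) (h : j ≠ i) : sg i a j = 1 := by
  classical
  exact RestrictedProduct.mulSingle_eq_of_ne _ a h

theorem sg_mul (i : D.ι) (a b : D.K i) : sg i (a * b) = sg i a * sg i b := by
  apply RestrictedProduct.ext
  intro j
  rw [RestrictedProduct.mul_apply]
  by_cases h : j = i
  · subst h
    rw [sg_same, sg_same, sg_same]
  · rw [sg_ne _ _ _ h, sg_ne _ _ _ h, sg_ne _ _ _ h, one_mul]

theorem pr_sg_left (i : D.ι) (a : D.K i) (y : RP D) : pr (sg i a) y = D.β i a (y i) := by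
  unfold pr
  rw [finprod_eq_single _ i, sg_same]
  intro j hj
  rw [sg_ne _ _ _ hj, map_one]
  rfl

theorem pr_sg_right (i : D.ι) (a : D.K i) (y : RP D) : pr y (sg i a) = D.β i (y i) a := by
  unfold pr
  rw [finprod_eq_single _ i, sg_same]
  intro j hj
  rw [sg_ne _ _ _ hj, map_one]

/-- the commutator character -/
noncomputable def chr (x : RP D) : PontryaginDual (RP D) :=
  show RP D →ₜ* Circle from
  { toFun := fun y => (pr x y) ^ 2
    map_one' := by rw [pr_one_right, one_pow]
    map_mul' := fun y y' => by rw [pr_mul_right, mul_pow]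
    continuous_toFun := (pr_continuous.comp (Continuous.prodMk continuous_const continuous_id)).pow 2 }

theorem chr_apply (x y : RP D) : chr x y = (pr x y) ^ 2 := rfl

/-- the homomorphism to the dual -/
noncomputable def M0 : RP D →* PontryaginDual (RP D) where
  toFun := chr
  map_one' := by
    apply PontryaginDual.ext
    intro y
    rw [chr_apply, pr_one_left, one_pow]; rfl
  map_mul' x x' := by
    apply PontryaginDual.ext
    intro y
    rw [chr_apply, pr_mul_left, mul_pow]; rfl

theorem M0_apply (x y : RP D) : M0 x y = (pr x y) ^ 2 := rfl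

theorem M0_continuous : Continuous (M0 (D := D)) := by
  apply ContinuousMonoidHom.continuous_of_continuous_uncurry (A := RP D)
  exact pr_continuous.pow 2

theorem M0_injective : Function.Injective (M0 (D := D)) := by
  rw [injective_iff_map_eq_one]
  intro x hx
  apply RestrictedProduct.ext
  intro i
  apply D.nondeg
  intro a
  have := DFunLike.congr_fun hx (sg i a)
  rw [M0_apply, pr_sg_right] at this
  exact this

/-- basic neighbourhoods of the identity -/
theorem nhds_small (V : Set (RP D)) (hV : V ∈ 𝓝 (1 : RP D)) : ∃ S : Set D.ι, S.Finite ∧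
    ∀ x : RP D, (∀ i ∈ S, x i = 1) → (∀ i, i ∉ S → x i ∈ D.L i) → x ∈ V := by
  have h1 : (1 : RP D) = RestrictedProduct.structureMap D.K (fun i => (D.L i : Set (D.K i))) cofinite
      (fun i => (1 : D.L i)) := by
    apply RestrictedProduct.ext
    intro i
    rfl
  rw [h1, RestrictedProduct.nhds_eq_map_structureMap (fun i => isOpen_discrete _), Filter.mem_map,
    nhds_pi, Filter.mem_pi] at hV
  obtain ⟨S, hS, t, ht, hsub⟩ := hV
  refine ⟨S, hS, fun x hx1 hx2 => ?_⟩
  have hx : ∀ i, x i ∈ D.L i := by
    intro i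
    by_cases hi : i ∈ S
    · rw [hx1 i hi]; exact one_mem _
    · exact hx2 i hi
  have hmem : (fun i => (⟨x i, hx i⟩ : D.L i)) ∈ S.pi t := by
    intro i hi
    have : (⟨x i, hx i⟩ : D.L i) = (1 : D.L i) := by
      apply Subtype.ext
      exact hx1 i hi
    change (⟨x i, _⟩ : D.L i) ∈ t i
    rw [this]
    exact mem_of_mem_nhds (ht i)
  have := hsub hmem
  have he : RestrictedProduct.structureMap D.K (fun i => (D.L i : Set (D.K i))) cofinite
      (fun i => (⟨x i, hx i⟩ : D.L i)) = x := by
    apply RestrictedProduct.ext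
    intro i
    rfl
  rw [Set.mem_preimage, he] at this
  exact this

/-- a character is trivial on a basic open subgroup -/
theorem char_small (χ : PontryaginDual (RP D)) : ∃ S : Set D.ι, S.Finite ∧
    ∀ x : RP D, (∀ i ∈ S, x i = 1) → (∀ i, i ∉ S → x i ∈ D.L i) → χ x = 1 := by
  have hcont : Continuous (χ : RP D → Circle) := map_continuous χ
  have hV : (χ : RP D → Circle) ⁻¹' (Circle.centeredArc (Real.pi / 2)) ∈ 𝓝 (1 : RP D) := by
    apply hcont.continuousAt.preimage_mem_nhds
    apply (Circle.isOpen_centeredArc (Real.pi / 2)).mem_nhds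
    rw [map_one, Circle.mem_centeredArc (by linarith [Real.pi_pos])]
    simp [Real.pi_pos]
  have h1 : (1 : RP D) = RestrictedProduct.structureMap D.K (fun i => (D.L i : Set (D.K i))) cofinite
      (fun i => (1 : D.L i)) := by
    apply RestrictedProduct.ext
    intro i
    rfl
  rw [h1, RestrictedProduct.nhds_eq_map_structureMap (fun i => isOpen_discrete _), Filter.mem_map,
    nhds_pi, Filter.mem_pi] at hV
  obtain ⟨S, hS, t, ht, hsub⟩ := hV
  refine ⟨S, hS, fun x hx1 hx2 => ?_⟩
  have hx : ∀ i, x i ∈ D.L i := by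
    intro i
    by_cases hi : i ∈ S
    · rw [hx1 i hi]; exact one_mem _
    · exact hx2 i hi
  apply Circle.eq_one_of_forall_pow_mem_centeredArc_pi_div_two
  intro n hn
  rw [← map_pow]
  have hmem : (fun i => (⟨(x ^ n) i, by rw [RestrictedProduct.pow_apply]; exact pow_mem (hx i) n⟩ :
      D.L i)) ∈ S.pi t := by
    intro i hi
    have : (⟨(x ^ n) i, by rw [RestrictedProduct.pow_apply]; exact pow_mem (hx i) n⟩ : D.L i) =
        (1 : D.L i) := by
      apply Subtype.ext
      show (x ^ n) i = 1
      rw [RestrictedProduct.pow_apply, hx1 i hi, one_pow]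
    change (⟨(x ^ n) i, _⟩ : D.L i) ∈ t i
    rw [this]
    exact mem_of_mem_nhds (ht i)
  have := hsub hmem
  have he : RestrictedProduct.structureMap D.K (fun i => (D.L i : Set (D.K i))) cofinite
      (fun i => (⟨(x ^ n) i, by rw [RestrictedProduct.pow_apply]; exact pow_mem (hx i) n⟩ : D.L i)) =
      x ^ n := by
    apply RestrictedProduct.ext
    intro i
    rfl
  rw [Set.mem_preimage, he] at this
  exact this

open scoped Classical in
/-- finite products of single elements -/
theorem prod_sg (S : Finset D.ι) (y : RP D) (i : D.ι) :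
    (∏ j ∈ S, sg j (y j)) i = if i ∈ S then y i else 1 := by
  classical
  induction S using Finset.induction_on with
  | empty => simp
  | insert j S hj ih =>
    rw [Finset.prod_insert hj, RestrictedProduct.mul_apply, ih]
    by_cases hij : i = j
    · subst hij
      simp [sg_same, hj]
    · rw [sg_ne _ _ _ hij, one_mul]
      simp [hij]

theorem M0_surjective : Function.Surjective (M0 (D := D)) := by
  classical
  intro χ
  obtain ⟨S, hS, hχ⟩ := char_small χ
  let f : ∀ i, D.K i →* Circle := fun i =>
    { toFun := fun a => χ (sg i a)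
      map_one' := by
        have : sg i (1 : D.K i) = 1 := by
          have := sg_mul i (1 : D.K i) 1
          rw [one_mul] at this
          exact left_eq_mul.1 this
        rw [this, map_one]
      map_mul' := fun a b => by rw [sg_mul, map_mul] }
  choose x hx using fun i => D.surj i (f i)
  have hxL : ∀ i, i ∉ S → x i ∈ D.L i := by
    intro i hi
    apply D.perp
    intro y hy
    rw [← hx i y]
    show χ (sg i y) = 1
    apply hχ
    · intro j hj
      exact sg_ne _ _ _ (fun h => hi (h ▸ hj))
    · intro j _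
      by_cases hji : j = i
      · subst hji; rw [sg_same]; exact hy
      · rw [sg_ne _ _ _ hji]; exact one_mem _
  let X : RP D := ⟨x, by
    rw [Filter.eventually_cofinite]
    refine hS.subset (fun i hi => ?_)
    by_contra hc
    exact hi (hxL i hc)⟩
  refine ⟨X, ?_⟩
  apply PontryaginDual.ext
  intro y
  -- split y
  have hy := y.2
  rw [Filter.eventually_cofinite] at hy
  set T : Finset D.ι := (hS.union hy).toFinset with hT
  set y1 : RP D := ∏ j ∈ T, sg j (y j) with hy1
  have hy1i : ∀ i, y1 i = if i ∈ T then y i else 1 := prod_sg T y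
  have hsplit : y = y1 * (y1⁻¹ * y) := by group
  have hrest : ∀ i, (y1⁻¹ * y) i = if i ∈ T then 1 else y i := by
    intro i
    rw [RestrictedProduct.mul_apply, RestrictedProduct.inv_apply, hy1i]
    by_cases hi : i ∈ T
    · simp [hi]
    · simp [hi]
  have hrest1 : ∀ i ∈ S, (y1⁻¹ * y) i = 1 := by
    intro i hi
    rw [hrest, if_pos]
    rw [hT, Set.Finite.mem_toFinset]
    exact Or.inl hi
  have hrestL : ∀ i, (y1⁻¹ * y) i ∈ D.L i := by
    intro i
    rw [hrest]
    split_ifs with h
    · exact one_mem _
    · by_contra hc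
      apply h
      rw [hT, Set.Finite.mem_toFinset]
      exact Or.inr hc
  have e1 : χ (y1⁻¹ * y) = 1 := hχ _ hrest1 (fun i _ => hrestL i)
  have e2 : pr X (y1⁻¹ * y) = 1 := by
    unfold pr
    rw [finprod_eq_one_of_forall_eq_one]
    intro i
    by_cases hi : i ∈ S
    · rw [hrest1 i hi, map_one]
    · exact D.iso i _ (hxL i hi) _ (hrestL i)
  have e3 : χ y1 = (pr X y1) ^ 2 := by
    rw [hy1, map_prod, ← M0_apply, map_prod]
    refine Finset.prod_congr rfl (fun j _ => ?_)
    rw [M0_apply, pr_sg_right]
    exact hx j (y j)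
  rw [hsplit, M0_apply, pr_mul_right, e2, mul_one, map_mul, e1, mul_one, e3]

theorem M0_isOpenMap : IsOpenMap (M0 (D := D)) := by
  rw [IsTopologicalGroup.isOpenMap_iff_nhds_one]
  -- the compact open subgroup
  set Ls : Set (RP D) := {x | ∀ i, x.1 i ∈ (D.L i : Set (D.K i))} with hLs
  have hLo : IsOpen Ls := RestrictedProduct.isOpen_forall_mem (fun i => isOpen_discrete _)
  have hLc : IsCompact Ls := by
    have : Ls = Set.range (RestrictedProduct.structureMap D.K (fun i => (D.L i : Set (D.K i))) cofinite) := by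
      rw [RestrictedProduct.range_structureMap]
    rw [this]
    exact isCompact_range (RestrictedProduct.isEmbedding_structureMap.continuous)
  have hL1 : (1 : RP D) ∈ Ls := fun i => one_mem (D.L i)
  -- the image is open
  have himg : M0 '' Ls = {χ : PontryaginDual (RP D) | ∀ x ∈ Ls, χ x = 1} := by
    ext χ
    constructor
    · rintro ⟨x, hx, rfl⟩ y hy
      rw [M0_apply]
      have : pr x y = 1 := by
        unfold pr
        rw [finprod_eq_one_of_forall_eq_one]
        intro i
        exact D.iso i _ (hx i) _ (hy i)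
      rw [this, one_pow]
    · intro hχ
      obtain ⟨x, rfl⟩ := M0_surjective χ
      refine ⟨x, fun i => ?_, rfl⟩
      apply D.perp
      intro a ha
      have hgoal : M0 x (sg i a) = 1 := by
        apply hχ
        intro j
        by_cases hji : j = i
        · subst hji
          show sg j a j ∈ D.L j
          rw [sg_same]; exact ha
        · show sg i a j ∈ D.L j
          rw [sg_ne _ _ _ hji]; exact one_mem _
      rw [M0_apply, pr_sg_right] at hgoal
      exact hgoal
  have hopen : IsOpen (M0 '' Ls) := by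
    have hset : M0 '' Ls = {χ : PontryaginDual (RP D) | Set.MapsTo χ Ls (Circle.centeredArc (Real.pi / 2))} := by
      rw [himg]
      ext χ
      constructor
      · intro h x hx
        rw [h x hx, Circle.mem_centeredArc (by linarith [Real.pi_pos])]
        simp [Real.pi_pos]
      · intro h x hx
        apply Circle.eq_one_of_forall_pow_mem_centeredArc_pi_div_two
        intro n hn
        rw [← map_pow]
        apply h
        intro i
        show (x ^ n) i ∈ _
        rw [RestrictedProduct.pow_apply]
        exact pow_mem (hx i) n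
    rw [hset]
    exact isOpen_induced (ContinuousMap.isOpen_setOfPred_mapsTo hLc (Circle.isOpen_centeredArc (Real.pi / 2)))
  -- conclude
  intro V hV
  rw [Filter.mem_map] at hV
  -- V' = interior of preimage intersected with Ls
  set W : Set (RP D) := interior (M0 ⁻¹' V) ∩ Ls with hW
  have hWo : IsOpen W := isOpen_interior.inter hLo
  have hWc : IsCompact (Ls \ W) := hLc.diff hWo
  have hcl : IsClosed (M0 '' (Ls \ W)) := (hWc.image M0_continuous).isClosed
  have h2 : M0 '' W = (M0 '' Ls) \ (M0 '' (Ls \ W)) := by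
    rw [← Set.image_sdiff M0_injective]
    congr 1
    ext x
    simp only [Set.mem_sdiff, not_and, not_not]
    constructor
    · intro hx; exact ⟨hx.2, fun _ => hx⟩
    · intro hx; exact hx.2 hx.1
  have h3 : IsOpen (M0 '' W) := by rw [h2]; exact hopen.sdiff hcl
  refine Filter.mem_of_superset (h3.mem_nhds ⟨1, ⟨mem_interior_iff_mem_nhds.2 hV, hL1⟩, map_one _⟩) ?_
  rintro _ ⟨x, hx, rfl⟩
  show x ∈ M0 ⁻¹' V
  exact interior_subset hx.1

/-- duality -/
noncomputable def Mequiv : RP D ≃ₜ* PontryaginDual (RP D) :=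
  { MulEquiv.ofBijective M0 ⟨M0_injective, M0_surjective⟩ with
    continuous_toFun := M0_continuous
    continuous_invFun := by
      exact (Equiv.toHomeomorphOfContinuousOpen
        (Equiv.ofBijective M0 ⟨M0_injective, M0_surjective⟩) M0_continuous M0_isOpenMap).symm.continuous }

end Pool.Q21.MU
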