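import Mathlib

set_option autoImplicit false

namespace Pool.Q21.MU.F

section abstract

variable {p : ℕ} {A : Type*} [AddCommGroup A] (b : A →+ A →+ ZMod (p ^ 8))

theorem b_zsmul_left (n : ℤ) (x y : A) : b (n • x) y = (n : ZMod (p ^ 8)) * b x y := by
  rw [map_zsmul, AddMonoidHom.zsmul_apply, zsmul_eq_mul]

theorem b_zsmul_right (n : ℤ) (x y : A) : b x (n • y) = (n : ZMod (p ^ 8)) * b x y := by
  rw [map_zsmul, zsmul_eq_mul]

theorem int_dvd (hp : p.Prime) (n : ℤ) (k l : ℕ) (hkl : k + l = 8)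
    (h : (n : ZMod (p ^ 8)) * (p : ZMod (p ^ 8)) ^ k = 0) : (p : ℤ) ^ l ∣ n := by
  have h1 : ((n * (p : ℤ) ^ k : ℤ) : ZMod (p ^ 8)) = 0 := by push_cast; exact h
  rw [ZMod.intCast_zmod_eq_zero_iff_dvd] at h1
  have h2 : ((p ^ 8 : ℕ) : ℤ) = (p : ℤ) ^ l * (p : ℤ) ^ k := by
    rw [← pow_add, ← hkl, add_comm]; push_cast; rfl
  rw [h2] at h1
  exact (mul_dvd_mul_iff_right (pow_ne_zero _ (by exact_mod_cast hp.ne_zero))).1 h1

/-- the finite obstruction -/
theorem nonsplit (hp : p.Prime) (halt : ∀ x, b x x = 0) (E1 E2 E3 E4 : A)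
    (o1 : ((p : ℤ) ^ 4) • E1 = 0) (o2 : ((p : ℤ) ^ 4) • E2 = 0) (o3 : ((p : ℤ) ^ 8) • E3 = 0)
    (b12 : b E1 E2 = (p : ZMod (p ^ 8)) ^ 4) (b13 : b E1 E3 = 0) (b14 : b E1 E4 = 0)
    (b23 : b E2 E3 = 0) (b24 : b E2 E4 = 0) (b34 : b E3 E4 = 1)
    (e2 e3 e4 : A) (h2 : e2 = ((p : ℤ) ^ 2) • E2)
    (h3 : e3 = ((p : ℤ) ^ 4) • E3 + (p : ℤ) • E2 - ((p : ℤ) ^ 2) • E1)
    (h4 : e4 = ((p : ℤ) ^ 2) • E4 + E2)
    (π : A →+ A) (hid : ∀ x, π (π x) = π x) (i1 : ∀ x y, b (π x) (π y) = 0)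
    (i2 : ∀ x y, b (x - π x) (y - π y) = 0)
    (a2 c2 d2 a3 c3 d3 : ℤ) (p2 : π e2 = a2 • e2 + c2 • e3 + d2 • e4)
    (p3 : π e3 = a3 • e2 + c3 • e3 + d3 • e4) : False := by
  have hsw : ∀ x y, b x y = - b y x := by
    intro x y
    have h := halt (x + y)
    rw [map_add b x y, AddMonoidHom.add_apply, map_add, map_add, halt, halt, zero_add, add_zero] at h
    exact eq_neg_of_add_eq_zero_left h
  have hrel : ∀ x y, b (π x) y + b x (π y) = b x y := by
    intro x y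
    have h := i2 x y
    rw [map_sub b x (π x), AddMonoidHom.sub_apply, map_sub, map_sub, i1, sub_zero] at h
    linear_combination -h
  have P8 : (p : ZMod (p ^ 8)) ^ 8 = 0 := by
    have := ZMod.natCast_self (p ^ 8)
    push_cast at this
    exact this
  have b21 : b E2 E1 = - (p : ZMod (p ^ 8)) ^ 4 := by rw [hsw, b12]
  have b31 : b E3 E1 = 0 := by rw [hsw, b13, neg_zero]
  have b41 : b E4 E1 = 0 := by rw [hsw, b14, neg_zero]
  have b32 : b E3 E2 = 0 := by rw [hsw, b23, neg_zero]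
  have b42 : b E4 E2 = 0 := by rw [hsw, b24, neg_zero]
  have b43 : b E4 E3 = -1 := by rw [hsw, b34]
  -- the values
  have v12 : b E1 e2 = (p : ZMod (p ^ 8)) ^ 6 := by
    rw [h2, b_zsmul_right, b12]; push_cast; ring
  have v13 : b E1 e3 = (p : ZMod (p ^ 8)) ^ 5 := by
    rw [h3, map_sub, map_add, b_zsmul_right, b_zsmul_right, b_zsmul_right, b12, b13, halt]; push_cast; ring
  have v14 : b E1 e4 = (p : ZMod (p ^ 8)) ^ 4 := by
    rw [h4, map_add, b_zsmul_right, b12, b14]; push_cast; ring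
  have v22 : b E2 e2 = 0 := by rw [h2, b_zsmul_right, halt, mul_zero]
  have v23 : b E2 e3 = (p : ZMod (p ^ 8)) ^ 6 := by
    rw [h3, map_sub, map_add, b_zsmul_right, b_zsmul_right, b_zsmul_right, b21, b23, halt]; push_cast; ring
  have v24 : b E2 e4 = 0 := by
    rw [h4, map_add, b_zsmul_right, halt, b24]; push_cast; ring
  have v32 : b E3 e2 = 0 := by rw [h2, b_zsmul_right, b32, mul_zero]
  have v33 : b E3 e3 = 0 := by
    rw [h3, map_sub, map_add, b_zsmul_right, b_zsmul_right, b_zsmul_right, b32, b31, halt]; push_cast; ring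
  have v34 : b E3 e4 = (p : ZMod (p ^ 8)) ^ 2 := by
    rw [h4, map_add, b_zsmul_right, b34, b32]; push_cast; ring
  have v42 : b E4 e2 = 0 := by rw [h2, b_zsmul_right, b42, mul_zero]
  have v43 : b E4 e3 = - (p : ZMod (p ^ 8)) ^ 4 := by
    rw [h3, map_sub, map_add, b_zsmul_right, b_zsmul_right, b_zsmul_right, b42, b41, b43]; push_cast; ring
  have v44 : b E4 e4 = 0 := by
    rw [h4, map_add, b_zsmul_right, halt, b42]; push_cast; ring
  -- divisibilities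
  have w2 : ((p : ℤ) ^ 2) • (π e2) = 0 := by
    rw [← map_zsmul, h2, smul_smul, ← pow_add, o2, map_zero]
  have w3 : ((p : ℤ) ^ 4) • (π e3) = 0 := by
    have : ((p : ℤ) ^ 4) • e3 = 0 := by
      rw [h3, smul_sub, smul_add, smul_smul, smul_smul, smul_smul, ← pow_add, o3,
        mul_comm _ (p : ℤ), ← smul_smul, o2, mul_comm _ ((p : ℤ) ^ 2), ← smul_smul, o1]
      simp
    rw [← map_zsmul, this, map_zero]
  have q1 : (p : ℤ) ^ 2 ∣ c2 := by
    have h := congrArg (b E4) w2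
    rw [b_zsmul_right, p2, map_add, map_add, b_zsmul_right, b_zsmul_right, b_zsmul_right, v42, v43, v44,
      map_zero] at h
    apply int_dvd hp c2 6 2 rfl
    push_cast at h
    linear_combination -h
  have q2 : (p : ℤ) ^ 4 ∣ d2 := by
    have h := congrArg (b E3) w2
    rw [b_zsmul_right, p2, map_add, map_add, b_zsmul_right, b_zsmul_right, b_zsmul_right, v32, v33, v34,
      map_zero] at h
    apply int_dvd hp d2 4 4 rfl
    push_cast at h
    linear_combination h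
  have q3 : (p : ℤ) ^ 2 ∣ d3 := by
    have h := congrArg (b E3) w3
    rw [b_zsmul_right, p3, map_add, map_add, b_zsmul_right, b_zsmul_right, b_zsmul_right, v32, v33, v34,
      map_zero] at h
    apply int_dvd hp d3 6 2 rfl
    push_cast at h
    linear_combination h
  obtain ⟨c2', rfl⟩ := q1
  obtain ⟨d2', rfl⟩ := q2
  obtain ⟨d3', rfl⟩ := q3
  have u12 : b E1 (π e2) = a2 * (p : ZMod (p ^ 8)) ^ 6 + c2' * (p : ZMod (p ^ 8)) ^ 7 := by
    rw [p2, map_add, map_add, b_zsmul_right, b_zsmul_right, b_zsmul_right, v12, v13, v14]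
    push_cast
    linear_combination (d2' : ZMod (p ^ 8)) * P8
  have u13 : b E1 (π e3) = a3 * (p : ZMod (p ^ 8)) ^ 6 + c3 * (p : ZMod (p ^ 8)) ^ 5 +
      d3' * (p : ZMod (p ^ 8)) ^ 6 := by
    rw [p3, map_add, map_add, b_zsmul_right, b_zsmul_right, b_zsmul_right, v12, v13, v14]
    push_cast
    ring
  have r12 := hrel E1 e2
  have r13 := hrel E1 e3
  have r23 := hrel E2 e3
  rw [v12, u12] at r12
  rw [v13, u13] at r13
  -- link
  have o1' : ((p : ℤ) ^ 4) • π E1 = 0 := by rw [← map_zsmul, o1, map_zero]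
  have o2' : ((p : ℤ) ^ 4) • π E2 = 0 := by rw [← map_zsmul, o2, map_zero]
  have z1 : ∀ y, (p : ZMod (p ^ 8)) ^ 4 * b (π E1) y = 0 := by
    intro y
    have h := b_zsmul_left b ((p : ℤ) ^ 4) (π E1) y
    rw [o1', map_zero, AddMonoidHom.zero_apply] at h
    push_cast at h
    exact h.symm
  have z2 : ∀ y, (p : ZMod (p ^ 8)) ^ 4 * b (π E2) y = 0 := by
    intro y
    have h := b_zsmul_left b ((p : ℤ) ^ 4) (π E2) y
    rw [o2', map_zero, AddMonoidHom.zero_apply] at h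
    push_cast at h
    exact h.symm
  have l1 : (p : ZMod (p ^ 8)) * b (π E1) e2 = (p : ZMod (p ^ 8)) ^ 2 * b (π E1) e3 := by
    rw [h2, h3, map_sub, map_add, b_zsmul_right, b_zsmul_right, b_zsmul_right, b_zsmul_right]
    push_cast
    linear_combination (-(p : ZMod (p ^ 8)) ^ 2) * z1 E3 + z1 E1
  have f1 : ((a2 - c3 : ℤ) : ZMod (p ^ 8)) * (p : ZMod (p ^ 8)) ^ 7 = 0 := by
    push_cast
    linear_combination (p : ZMod (p ^ 8)) * r12 - (p : ZMod (p ^ 8)) ^ 2 * r13 - l1 +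
      (a3 + d3' - c2' : ZMod (p ^ 8)) * P8
  -- second relation
  have u23 : b E2 (π e3) = c3 * (p : ZMod (p ^ 8)) ^ 6 := by
    rw [p3, map_add, map_add, b_zsmul_right, b_zsmul_right, b_zsmul_right, v22, v23, v24]
    ring
  have l2 : ∀ y, (p : ZMod (p ^ 8)) ^ 2 * b (π E2) y = b (π e2) y := by
    intro y
    rw [h2, map_zsmul, b_zsmul_left]
    push_cast
    ring
  have l3 : b (π e2) E2 = 0 := by
    rw [hsw, p2, map_add, map_add, b_zsmul_right, b_zsmul_right, b_zsmul_right, v22, v23, v24]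
    push_cast
    linear_combination (-(c2' : ZMod (p ^ 8))) * P8
  have l4 : b (π e2) E1 = - (a2 * (p : ZMod (p ^ 8)) ^ 6 + c2' * (p : ZMod (p ^ 8)) ^ 7) := by
    rw [hsw, u12]
  have l5 : (p : ZMod (p ^ 8)) * b (π E2) e3 = a2 * (p : ZMod (p ^ 8)) ^ 7 := by
    rw [h3, map_sub, map_add, b_zsmul_right, b_zsmul_right, b_zsmul_right]
    push_cast
    linear_combination (p : ZMod (p ^ 8)) * z2 E3 + l2 E2 + l3 - (p : ZMod (p ^ 8)) * l2 E1 -
      (p : ZMod (p ^ 8)) * l4 + (c2' : ZMod (p ^ 8)) * P8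
  rw [v23, u23] at r23
  have f2 : ((a2 + c3 - 1 : ℤ) : ZMod (p ^ 8)) * (p : ZMod (p ^ 8)) ^ 7 = 0 := by
    push_cast
    linear_combination (p : ZMod (p ^ 8)) * r23 - l5
  -- idempotence
  have g1 : π (π e2) = a2 • π e2 + ((p : ℤ) ^ 2 * c2') • π e3 + ((p : ℤ) ^ 4 * d2') • π e4 := by
    conv_lhs => rw [p2]
    rw [map_add, map_add, map_zsmul, map_zsmul, map_zsmul]
  rw [hid] at g1
  have g2 := congrArg (b E1) g1
  have z4 : (p : ZMod (p ^ 8)) ^ 4 * b E1 (π e4) = 0 := by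
    have h := b_zsmul_left b ((p : ℤ) ^ 4) E1 (π e4)
    rw [o1, map_zero, AddMonoidHom.zero_apply] at h
    push_cast at h
    exact h.symm
  rw [map_add, map_add, b_zsmul_right, b_zsmul_right, b_zsmul_right, u12, u13] at g2
  have f3 : ((a2 * a2 - a2 : ℤ) : ZMod (p ^ 8)) * (p : ZMod (p ^ 8)) ^ 7 = 0 := by
    push_cast
    push_cast at g2
    linear_combination -(p : ZMod (p ^ 8)) * g2 - (p * d2' : ZMod (p ^ 8)) * z4 +
      (c2' - a2 * c2' - c2' * (a3 * p + c3 + d3' * p) : ZMod (p ^ 8)) * P8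
  have k1 := int_dvd hp _ 7 1 rfl f1
  have k2 := int_dvd hp _ 7 1 rfl f2
  have k3 := int_dvd hp _ 7 1 rfl f3
  rw [pow_one] at k1 k2 k3
  have k4 : (p : ℤ) ∣ 1 := by
    have : (1 : ℤ) = (2 * a2 - 1) * ((a2 - c3) + (a2 + c3 - 1)) - 4 * (a2 * a2 - a2) := by ring
    rw [this]
    exact dvd_sub (dvd_mul_of_dvd_right (dvd_add k1 k2) _) (dvd_mul_of_dvd_right k3 _)
  have := Int.natCast_dvd_natCast.1 (by simpa using k4 : ((p : ℕ) : ℤ) ∣ ((1 : ℕ) : ℤ))
  exact hp.one_lt.ne' (Nat.dvd_one.1 this)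

end abstract

end Pool.Q21.MU.F
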