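import Pool.Agent.Q21.MU.Proj

set_option autoImplicit false

namespace Pool.Q21.MU

open Filter Topology RestrictedProduct
open scoped commutatorElement

/-- the group -/
@[ext] structure Gp (D : Data) where
  t : Circle
  x : RP D

variable {D : Data}

namespace Gp

/-- as a product -/
def equiv : Gp D ≃ Circle × RP D where
  toFun g := (g.t, g.x)
  invFun z := ⟨z.1, z.2⟩
  left_inv _ := rfl
  right_inv _ := rfl

noncomputable instance : TopologicalSpace (Gp D) := TopologicalSpace.induced equiv inferInstance

/-- as a product space -/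
noncomputable def homeo : Gp D ≃ₜ Circle × RP D := equiv.toHomeomorphOfIsInducing ⟨rfl⟩

instance : T2Space (Gp D) := (homeo (D := D)).symm.t2Space
instance : LocallyCompactSpace (Gp D) :=
  (homeo (D := D)).isClosedEmbedding.locallyCompactSpace

theorem cont_t : Continuous (Gp.t : Gp D → Circle) := continuous_fst.comp homeo.continuous
theorem cont_x : Continuous (Gp.x : Gp D → RP D) := continuous_snd.comp homeo.continuous

theorem cont_mk {X : Type*} [TopologicalSpace X] {f : X → Circle} {g : X → RP D} (hf : Continuous f)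
    (hg : Continuous g) : Continuous (fun z => (⟨f z, g z⟩ : Gp D)) :=
  homeo.symm.continuous.comp (hf.prodMk hg)

noncomputable instance : Mul (Gp D) := ⟨fun g h => ⟨g.t * h.t * pr g.x h.x, g.x * h.x⟩⟩
noncomputable instance : One (Gp D) := ⟨⟨1, 1⟩⟩
noncomputable instance : Inv (Gp D) := ⟨fun g => ⟨g.t⁻¹, g.x⁻¹⟩⟩

@[simp] theorem mul_t (g h : Gp D) : (g * h).t = g.t * h.t * pr g.x h.x := rfl
@[simp] theorem mul_x (g h : Gp D) : (g * h).x = g.x * h.x := rfl
@[simp] theorem one_t : (1 : Gp D).t = 1 := rfl
@[simp] theorem one_x : (1 : Gp D).x = 1 := rfl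
@[simp] theorem inv_t (g : Gp D) : g⁻¹.t = g.t⁻¹ := rfl
@[simp] theorem inv_x (g : Gp D) : g⁻¹.x = g.x⁻¹ := rfl

end Gp

theorem pr_inv_left (x y : RP D) : pr x⁻¹ y = (pr x y)⁻¹ := by
  have := pr_mul_left x⁻¹ x y
  rw [inv_mul_cancel, pr_one_left] at this
  exact eq_inv_of_mul_eq_one_left this.symm

theorem pr_inv_right (x y : RP D) : pr x y⁻¹ = (pr x y)⁻¹ := by
  have := pr_mul_right x y⁻¹ y
  rw [inv_mul_cancel, pr_one_right] at this
  exact eq_inv_of_mul_eq_one_left this.symm

namespace Gp

noncomputable instance : Group (Gp D) := Group.ofLeftAxioms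
  (by
    intro a b c
    refine Gp.ext ?_ ?_
    · simp only [mul_t, mul_x, pr_mul_left, pr_mul_right]
      generalize pr a.x b.x = u
      generalize pr a.x c.x = v
      generalize pr b.x c.x = w
      generalize a.t = a', b.t = b', c.t = c'
      rw [mul_assoc, mul_assoc, mul_assoc, mul_assoc, mul_assoc, mul_assoc]
      congr 2
      rw [mul_left_comm u c', mul_left_comm u v w, mul_comm u w, mul_left_comm v w u, mul_left_comm w u v]
      congr 1
      rw [mul_left_comm u w v, mul_comm u v]
    · simp only [mul_x, mul_assoc])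
  (by
    intro a
    refine Gp.ext ?_ ?_
    · simp [pr_one_left]
    · simp)
  (by
    intro a
    refine Gp.ext ?_ ?_
    · simp [pr_inv_left, pr_self]
    · simp)

instance : IsTopologicalGroup (Gp D) where
  continuous_mul := by
    refine cont_mk (((cont_t.comp continuous_fst).mul (cont_t.comp continuous_snd)).mul ?_)
      ((cont_x.comp continuous_fst).mul (cont_x.comp continuous_snd))
    exact pr_continuous.comp (Continuous.prodMk (cont_x.comp continuous_fst) (cont_x.comp continuous_snd))
  continuous_inv := cont_mk cont_t.inv cont_x.inv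

theorem comm_def (g h : Gp D) : ⁅g, h⁆ = ⟨(pr g.x h.x) ^ 2, 1⟩ := by
  rw [commutatorElement_def]
  have hs : pr h.x g.x = (pr g.x h.x)⁻¹ := eq_inv_of_mul_eq_one_right (pr_swap g.x h.x)
  refine Gp.ext ?_ ?_
  · simp only [mul_t, mul_x, inv_t, inv_x, pr_mul_left, pr_inv_left, pr_inv_right, pr_self, hs]
    simp only [inv_inv, inv_one, mul_one, one_mul, pow_two]
    generalize pr g.x h.x = u
    generalize g.t = a', h.t = b'
    apply Circle.ext
    have h1 := Circle.coe_ne_zero u
    have h2 := Circle.coe_ne_zero a'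
    have h3 := Circle.coe_ne_zero b'
    push_cast
    field_simp
  · simp only [mul_x, inv_x]
    rw [mul_comm g.x h.x]
    group

theorem mem_center (g : Gp D) : g ∈ Subgroup.center (Gp D) ↔ g.x = 1 := by
  rw [Subgroup.mem_center_iff]
  constructor
  · intro h
    apply M0_injective
    apply PontryaginDual.ext
    intro y
    rw [M0_apply, map_one]
    have h1 := h ⟨1, y⟩
    have h2 : ⁅g, (⟨1, y⟩ : Gp D)⁆ = 1 := commutatorElement_eq_one_iff_mul_comm.2 (h1.symm)
    rw [comm_def] at h2
    exact congrArg Gp.t h2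
  · intro h k
    have : ⁅g, k⁆ = 1 := by
      rw [comm_def, h, pr_one_left, one_pow]; rfl
    exact (commutatorElement_eq_one_iff_mul_comm.1 this).symm

end Gp

end Pool.Q21.MU
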