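import Pool.Agent.Q21.MU.Dual

set_option autoImplicit false

namespace Pool.Q21.MU

open Filter Topology RestrictedProduct

variable {D : Data}

theorem sg_pow (i : D.ι) (a : D.K i) (n : ℕ) : (sg i a) ^ n = sg i (a ^ n) := by
  apply RestrictedProduct.ext
  intro j
  rw [RestrictedProduct.pow_apply]
  by_cases h : j = i
  · subst h
    rw [sg_same, sg_same]
  · rw [sg_ne _ _ _ h, sg_ne _ _ _ h, one_pow]

theorem sg_one (i : D.ι) : sg i (1 : D.K i) = 1 := by
  apply RestrictedProduct.ext
  intro j
  by_cases h : j = i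
  · subst h
    rw [sg_same]; rfl
  · rw [sg_ne _ _ _ h]; rfl

/-- endomorphisms preserve the coordinates -/
theorem endo_sg (π : RP D →* RP D) (i : D.ι) (a : D.K i) : π (sg i a) = sg i (π (sg i a) i) := by
  apply RestrictedProduct.ext
  intro j
  by_cases h : j = i
  · subst h
    rw [sg_same]
  · rw [sg_ne _ _ _ h]
    have h1 : (π (sg i a) j) ^ (D.e i) = 1 := by
      have : (π (sg i a)) ^ (D.e i) = 1 := by
        rw [← map_pow, sg_pow, D.tors i a, sg_one, map_one]
      have h2 := congrArg (fun x : RP D => x j) this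
      simpa only [RestrictedProduct.pow_apply, RestrictedProduct.one_apply] using h2
    have h2 : (π (sg i a) j) ^ (D.e j) = 1 := D.tors j _
    have h3 : orderOf (π (sg i a) j) ∣ 1 := by
      rw [← (D.cop j i h).gcd_eq_one]
      exact Nat.dvd_gcd (orderOf_dvd_of_pow_eq_one h2) (orderOf_dvd_of_pow_eq_one h1)
    exact orderOf_eq_one_iff.1 (Nat.dvd_one.1 h3)

/-- no compatible isotropic splitting -/
theorem no_proj (π : RP D →* RP D) (hc : Continuous π) (hid : ∀ x, π (π x) = π x)
    (h1 : ∀ x y, (pr (π x) (π y)) ^ 2 = 1) (h2 : ∀ x y, (pr (x / π x) (y / π y)) ^ 2 = 1) : False := by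
  have hLo : IsOpen {x : RP D | ∀ i, x.1 i ∈ (D.L i : Set (D.K i))} :=
    RestrictedProduct.isOpen_forall_mem (fun i => isOpen_discrete _)
  have hV : π ⁻¹' {x : RP D | ∀ i, x.1 i ∈ (D.L i : Set (D.K i))} ∈ 𝓝 (1 : RP D) := by
    apply hc.continuousAt.preimage_mem_nhds
    apply hLo.mem_nhds
    rw [map_one]
    intro i
    exact one_mem (D.L i)
  obtain ⟨S, hS, hsub⟩ := nhds_small _ hV
  have := D.inf
  obtain ⟨i, hi⟩ := hS.exists_notMem
  refine D.nonsplit i
    { toFun := fun a => π (sg i a) i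
      map_one' := by rw [sg_one, map_one]; rfl
      map_mul' := fun a b => by rw [sg_mul, map_mul]; rfl } ?_ ?_ ?_ ?_
  · intro x hx
    have := hsub (sg i x) (fun j hj => sg_ne _ _ _ (fun h => hi (h ▸ hj))) (fun j _ => by
      by_cases hji : j = i
      · subst hji; rw [sg_same]; exact hx
      · rw [sg_ne _ _ _ hji]; exact one_mem _)
    exact this i
  · intro x
    show π (sg i (π (sg i x) i)) i = π (sg i x) i
    rw [← endo_sg, hid]
  · intro x y
    show (D.β i (π (sg i x) i) (π (sg i y) i)) ^ 2 = 1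
    have := h1 (sg i x) (sg i y)
    rw [endo_sg π i x, pr_sg_left] at this
    exact this
  · intro x y
    show (D.β i (x / (π (sg i x) i)) (y / (π (sg i y) i))) ^ 2 = 1
    have := h2 (sg i x) (sg i y)
    have e1 : sg i x / π (sg i x) = sg i (x / (π (sg i x) i)) := by
      rw [div_eq_iff_eq_mul, endo_sg π i x, ← sg_mul, sg_same, div_mul_cancel]
    rw [e1, pr_sg_left, RestrictedProduct.div_apply, sg_same] at this
    exact this

end Pool.Q21.MU
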