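import Pool.Agent.Q21.MU.Fin
import Pool.Agent.Q21.MU.Proj

set_option autoImplicit false

namespace Pool.Q21.MU.F

/-- the finite group, additively -/
abbrev A (p : ℕ) : Type := ZMod (p ^ 4) × ZMod (p ^ 4) × ZMod (p ^ 8) × ZMod (p ^ 8)

/-- multiplication by p^4 -/
noncomputable def j (p : ℕ) : ZMod (p ^ 4) →+ ZMod (p ^ 8) :=
  ZMod.lift (p ^ 4) ⟨(AddMonoidHom.mulLeft ((p : ZMod (p ^ 8)) ^ 4)).comp (Int.castAddHom _), by
    have := ZMod.natCast_self (p ^ 8)
    push_cast at this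
    simp only [AddMonoidHom.coe_comp, Function.comp_apply, AddMonoidHom.coe_mulLeft, Int.coe_castAddHom]
    push_cast
    rw [← pow_add]
    exact this⟩

theorem j_int (p : ℕ) (n : ℤ) : j p (n : ZMod (p ^ 4)) = (p : ZMod (p ^ 8)) ^ 4 * n := by
  unfold j
  rw [ZMod.lift_coe]
  rfl

/-- the alternating form -/
noncomputable def b (p : ℕ) : A p →+ A p →+ ZMod (p ^ 8) :=
  AddMonoidHom.mk' (fun x => AddMonoidHom.mk' (fun y =>
    j p (x.1 * y.2.1 - x.2.1 * y.1) + (x.2.2.1 * y.2.2.2 - x.2.2.2 * y.2.2.1)) (by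
      intro y y'
      have : x.1 * (y + y').2.1 - x.2.1 * (y + y').1 = (x.1 * y.2.1 - x.2.1 * y.1) +
          (x.1 * y'.2.1 - x.2.1 * y'.1) := by
        simp only [Prod.snd_add, Prod.fst_add]; ring
      rw [this, map_add]
      simp only [Prod.snd_add, Prod.fst_add]
      ring)) (by
    intro x x'
    ext1 y
    simp only [AddMonoidHom.mk'_apply, AddMonoidHom.add_apply]
    have : (x + x').1 * y.2.1 - (x + x').2.1 * y.1 = (x.1 * y.2.1 - x.2.1 * y.1) +
        (x'.1 * y.2.1 - x'.2.1 * y.1) := by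
      simp only [Prod.snd_add, Prod.fst_add]; ring
    rw [this, map_add]
    simp only [Prod.snd_add, Prod.fst_add]
    ring)

theorem b_apply (p : ℕ) (x y : A p) : b p x y =
    j p (x.1 * y.2.1 - x.2.1 * y.1) + (x.2.2.1 * y.2.2.2 - x.2.2.2 * y.2.2.1) := rfl

/-- integral vectors -/
def v (p : ℕ) (x1 x2 x3 x4 : ℤ) : A p := (x1, x2, x3, x4)

theorem v_surj (p : ℕ) (x : A p) : ∃ x1 x2 x3 x4 : ℤ, x = v p x1 x2 x3 x4 := by
  obtain ⟨a, ha⟩ := ZMod.intCast_surjective x.1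
  obtain ⟨c, hc⟩ := ZMod.intCast_surjective x.2.1
  obtain ⟨d, hd⟩ := ZMod.intCast_surjective x.2.2.1
  obtain ⟨e, he⟩ := ZMod.intCast_surjective x.2.2.2
  exact ⟨a, c, d, e, by unfold v; rw [ha, hc, hd, he]⟩

theorem v_add (p : ℕ) (x1 x2 x3 x4 y1 y2 y3 y4 : ℤ) : v p x1 x2 x3 x4 + v p y1 y2 y3 y4 =
    v p (x1 + y1) (x2 + y2) (x3 + y3) (x4 + y4) := by
  unfold v
  push_cast
  rfl

theorem v_smul (p : ℕ) (n x1 x2 x3 x4 : ℤ) : n • v p x1 x2 x3 x4 =
    v p (n * x1) (n * x2) (n * x3) (n * x4) := by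
  unfold v
  push_cast
  ext
  · exact zsmul_eq_mul _ _
  · exact zsmul_eq_mul _ _
  · exact zsmul_eq_mul _ _
  · exact zsmul_eq_mul _ _

theorem b_v (p : ℕ) (x1 x2 x3 x4 y1 y2 y3 y4 : ℤ) : b p (v p x1 x2 x3 x4) (v p y1 y2 y3 y4) =
    (((p : ℤ) ^ 4 * (x1 * y2 - x2 * y1) + (x3 * y4 - x4 * y3) : ℤ) : ZMod (p ^ 8)) := by
  rw [b_apply]
  have : (v p x1 x2 x3 x4).1 * (v p y1 y2 y3 y4).2.1 - (v p x1 x2 x3 x4).2.1 * (v p y1 y2 y3 y4).1 =
      ((x1 * y2 - x2 * y1 : ℤ) : ZMod (p ^ 4)) := by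
    simp only [v]; push_cast; ring
  rw [this, j_int]
  simp only [v]
  push_cast
  ring

theorem b_alt (p : ℕ) (x : A p) : b p x x = 0 := by
  rw [b_apply, mul_comm x.2.1, sub_self, map_zero, mul_comm x.2.2.2, sub_self, add_zero]

/-- the generators of the Lagrangian -/
def e2 (p : ℕ) : A p := v p 0 (p ^ 2) 0 0
def e3 (p : ℕ) : A p := v p (-(p ^ 2)) p (p ^ 4) 0
def e4 (p : ℕ) : A p := v p 0 1 0 (p ^ 2)

/-- the Lagrangian -/
def L (p : ℕ) : Submodule ℤ (A p) := Submodule.span ℤ {e2 p, e3 p, e4 p}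

theorem e2_mem (p : ℕ) : e2 p ∈ L p := Submodule.subset_span (by simp)
theorem e3_mem (p : ℕ) : e3 p ∈ L p := Submodule.subset_span (by simp)
theorem e4_mem (p : ℕ) : e4 p ∈ L p := Submodule.subset_span (by simp)

theorem mem_L (p : ℕ) (x : A p) : x ∈ L p ↔ ∃ a c d : ℤ, a • e2 p + c • e3 p + d • e4 p = x :=
  Submodule.mem_span_triple

theorem zero_of_dvd (p : ℕ) (n m : ℤ) (h : n = (p : ℤ) ^ 8 * m) : ((n : ℤ) : ZMod (p ^ 8)) = 0 := by
  rw [ZMod.intCast_zmod_eq_zero_iff_dvd, h]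
  push_cast
  exact Dvd.intro _ rfl

theorem L_iso (p : ℕ) (x y : A p) (hx : x ∈ L p) (hy : y ∈ L p) : b p x y = 0 := by
  rw [mem_L] at hx hy
  obtain ⟨a, c, d, rfl⟩ := hx
  obtain ⟨a', c', d', rfl⟩ := hy
  have h23 : b p (e2 p) (e3 p) = 0 := by
    unfold e2 e3; rw [b_v]; exact zero_of_dvd p _ 1 (by ring)
  have h24 : b p (e2 p) (e4 p) = 0 := by
    unfold e2 e4; rw [b_v]; exact zero_of_dvd p _ 0 (by ring)
  have h34 : b p (e3 p) (e4 p) = 0 := by
    unfold e3 e4; rw [b_v]; exact zero_of_dvd p _ 0 (by ring)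
  have h32 : b p (e3 p) (e2 p) = 0 := by
    unfold e2 e3; rw [b_v]; exact zero_of_dvd p _ (-1) (by ring)
  have h42 : b p (e4 p) (e2 p) = 0 := by
    unfold e2 e4; rw [b_v]; exact zero_of_dvd p _ 0 (by ring)
  have h43 : b p (e4 p) (e3 p) = 0 := by
    unfold e3 e4; rw [b_v]; exact zero_of_dvd p _ 0 (by ring)
  simp only [map_add, AddMonoidHom.add_apply, map_zsmul, AddMonoidHom.zsmul_apply, b_alt, h23, h24, h34, h32,
    h42, h43, smul_zero, add_zero]

theorem L_perp (p : ℕ) (hp : p.Prime) (x : A p) (h2 : b p x (e2 p) = 0) (h3 : b p x (e3 p) = 0)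
    (h4 : b p x (e4 p) = 0) : x ∈ L p := by
  obtain ⟨x1, x2, x3, x4, rfl⟩ := v_surj p x
  have hp0 : (p : ℤ) ≠ 0 := by exact_mod_cast hp.ne_zero
  unfold e2 at h2
  unfold e3 at h3
  unfold e4 at h4
  rw [b_v, ZMod.intCast_zmod_eq_zero_iff_dvd] at h2 h3 h4
  push_cast at h2 h3 h4
  obtain ⟨t, ht⟩ : (p : ℤ) ^ 2 ∣ x1 := by
    have : (p : ℤ) ^ 2 * (p : ℤ) ^ 6 ∣ x1 * (p : ℤ) ^ 6 := by
      convert! h2 using 1 <;> ring
    exact (mul_dvd_mul_iff_right (pow_ne_zero _ hp0)).1 this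
  obtain ⟨r, hr⟩ : (p : ℤ) ^ 4 ∣ p * x1 + p ^ 2 * x2 - x4 := by
    have : (p : ℤ) ^ 4 * (p : ℤ) ^ 4 ∣ (p * x1 + p ^ 2 * x2 - x4) * (p : ℤ) ^ 4 := by
      convert! h3 using 1 <;> ring
    exact (mul_dvd_mul_iff_right (pow_ne_zero _ hp0)).1 this
  obtain ⟨s, hs⟩ : (p : ℤ) ^ 6 ∣ x3 + p ^ 2 * x1 := by
    have : (p : ℤ) ^ 6 * (p : ℤ) ^ 2 ∣ (x3 + p ^ 2 * x1) * (p : ℤ) ^ 2 := by
      convert! h4 using 1 <;> ring
    exact (mul_dvd_mul_iff_right (pow_ne_zero _ hp0)).1 this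
  rw [mem_L]
  -- x4 = p x1 + p² x2 - p⁴ r
  refine ⟨-(p * s) + r, -t + p ^ 2 * s, p * t + x2 - p ^ 2 * r, ?_⟩
  have e1 : x1 = p ^ 2 * t := ht
  have e4 : x4 = p ^ 3 * t + p ^ 2 * x2 - p ^ 4 * r := by rw [e1] at hr; linear_combination -hr
  have e3 : x3 = p ^ 6 * s - p ^ 4 * t := by rw [e1] at hs; linear_combination hs
  have z4 : ((p : ZMod (p ^ 4)) ^ 4) = 0 := by
    have := ZMod.natCast_self (p ^ 4)
    push_cast at this
    exact this
  rw [e1, e4, e3]
  unfold F.e2 F.e3 F.e4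
  rw [v_smul, v_smul, v_smul, v_add, v_add]
  unfold v
  ext
  · push_cast
    linear_combination (-(s : ZMod (p ^ 4))) * z4
  · push_cast
    ring
  · push_cast
    ring
  · push_cast
    ring

theorem b_nondeg (p : ℕ) (hp : p.Prime) (x : A p) (h : ∀ y, b p x y = 0) : x = 0 := by
  obtain ⟨x1, x2, x3, x4, rfl⟩ := v_surj p x
  have hp0 : (p : ℤ) ≠ 0 := by exact_mod_cast hp.ne_zero
  have h1 := h (v p 1 0 0 0)
  have h2 := h (v p 0 1 0 0)
  have h3 := h (v p 0 0 1 0)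
  have h4 := h (v p 0 0 0 1)
  rw [b_v, ZMod.intCast_zmod_eq_zero_iff_dvd] at h1 h2 h3 h4
  push_cast at h1 h2 h3 h4
  have k1 : ((x1 : ℤ) : ZMod (p ^ 4)) = 0 := by
    rw [ZMod.intCast_zmod_eq_zero_iff_dvd]
    push_cast
    have : (p : ℤ) ^ 4 * (p : ℤ) ^ 4 ∣ x1 * (p : ℤ) ^ 4 := by
      convert! h2 using 1 <;> ring
    exact (mul_dvd_mul_iff_right (pow_ne_zero _ hp0)).1 this
  have k2 : ((x2 : ℤ) : ZMod (p ^ 4)) = 0 := by
    rw [ZMod.intCast_zmod_eq_zero_iff_dvd]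
    push_cast
    have : (p : ℤ) ^ 4 * (p : ℤ) ^ 4 ∣ x2 * (p : ℤ) ^ 4 := by
      rw [← dvd_neg]
      convert! h1 using 1 <;> ring
    exact (mul_dvd_mul_iff_right (pow_ne_zero _ hp0)).1 this
  have k3 : ((x3 : ℤ) : ZMod (p ^ 8)) = 0 := by
    rw [ZMod.intCast_zmod_eq_zero_iff_dvd]
    push_cast
    convert! h4 using 1; ring
  have k4 : ((x4 : ℤ) : ZMod (p ^ 8)) = 0 := by
    rw [ZMod.intCast_zmod_eq_zero_iff_dvd]
    push_cast
    rw [← dvd_neg]
    convert! h3 using 1; ring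
  unfold v
  rw [k1, k2, k3, k4]
  rfl

/-- the finite obstruction, for the concrete group -/
theorem nonsplit' (p : ℕ) (hp : p.Prime) (π : A p →+ A p) (hL : ∀ x ∈ L p, π x ∈ L p)
    (hid : ∀ x, π (π x) = π x) (i1 : ∀ x y, b p (π x) (π y) = 0)
    (i2 : ∀ x y, b p (x - π x) (y - π y) = 0) : False := by
  obtain ⟨a2, c2, d2, p2⟩ := (mem_L p _).1 (hL _ (e2_mem p))
  obtain ⟨a3, c3, d3, p3⟩ := (mem_L p _).1 (hL _ (e3_mem p))
  have z4 : ((p : ZMod (p ^ 4)) ^ 4) = 0 := by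
    have := ZMod.natCast_self (p ^ 4)
    push_cast at this
    exact this
  have z8 : ((p : ZMod (p ^ 8)) ^ 8) = 0 := by
    have := ZMod.natCast_self (p ^ 8)
    push_cast at this
    exact this
  refine nonsplit (b p) hp (b_alt p) (v p 1 0 0 0) (v p 0 1 0 0) (v p 0 0 1 0) (v p 0 0 0 1)
    ?_ ?_ ?_ ?_ ?_ ?_ ?_ ?_ ?_ (e2 p) (e3 p) (e4 p) ?_ ?_ ?_ π hid i1 i2 a2 c2 d2 a3 c3 d3 p2.symm p3.symm
  · unfold v
    ext <;> simp [z4]
  · unfold v
    ext <;> simp [z4]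
  · unfold v
    ext <;> simp [z8]
  · rw [b_v]; push_cast; ring
  · rw [b_v]; push_cast; ring
  · rw [b_v]; push_cast; ring
  · rw [b_v]; push_cast; ring
  · rw [b_v]; push_cast; ring
  · rw [b_v]; push_cast; ring
  · unfold e2 v; ext <;> simp
  · unfold e3 v; ext <;> simp
  · unfold e4 v; ext <;> simp

variable (p : ℕ) [hp : Fact p.Prime]

/-- the multiplicative form -/
noncomputable def β : Multiplicative (A p) →* Multiplicative (A p) →* Circle :=
  MonoidHom.mk' (fun x => MonoidHom.mk' (fun y =>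
    ZMod.toCircle (b p (Multiplicative.toAdd x) (Multiplicative.toAdd y))) (by
      intro y y'
      rw [toAdd_mul, map_add, AddChar.map_add_eq_mul])) (by
    intro x x'
    refine MonoidHom.ext (fun y => ?_)
    simp only [MonoidHom.mk'_apply, MonoidHom.mul_apply]
    rw [toAdd_mul, map_add, AddMonoidHom.add_apply, AddChar.map_add_eq_mul])

theorem β_apply (x y : Multiplicative (A p)) : β p x y =
    ZMod.toCircle (b p (Multiplicative.toAdd x) (Multiplicative.toAdd y)) := rfl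

theorem sq_eq_one (h2 : p ≠ 2) (x y : Multiplicative (A p)) (h : (β p x y) ^ 2 = 1) :
    b p (Multiplicative.toAdd x) (Multiplicative.toAdd y) = 0 := by
  rw [β_apply, ← AddChar.map_nsmul_eq_pow] at h
  have h3 : (2 : ℕ) • b p (Multiplicative.toAdd x) (Multiplicative.toAdd y) = 0 := by
    apply ZMod.injective_toCircle
    rw [h, AddChar.map_zero_eq_one]
  rw [nsmul_eq_mul] at h3
  have hu : IsUnit ((2 : ℕ) : ZMod (p ^ 8)) := by
    rw [ZMod.isUnit_iff_coprime]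
    apply Nat.Coprime.pow_right
    exact (Nat.coprime_primes Nat.prime_two hp.out).2 (Ne.symm h2)
  exact (hu.mul_right_eq_zero).1 h3

theorem one_of_zero (x y : Multiplicative (A p))
    (h : b p (Multiplicative.toAdd x) (Multiplicative.toAdd y) = 0) : β p x y = 1 := by
  rw [β_apply, h, AddChar.map_zero_eq_one]

theorem card_chars : Nat.card (Multiplicative (A p) →* Circle) = Nat.card (Multiplicative (A p)) := by
  classical
  rw [Nat.card_congr (AddChar.toMonoidHomEquiv (A := A p) (M := Circle)).symm,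
    Nat.card_congr (AddChar.circleEquivComplex (α := A p)).toEquiv, Nat.card_eq_fintype_card, AddChar.card_eq,
    ← Nat.card_eq_fintype_card]
  exact Nat.card_congr Multiplicative.ofAdd

theorem β_surj (h2 : p ≠ 2) (χ : Multiplicative (A p) →* Circle) : ∃ x, ∀ y, χ y = (β p x y) ^ 2 := by
  classical
  let f : Multiplicative (A p) → (Multiplicative (A p) →* Circle) := fun x => (β p x) ^ 2
  have hinj : Function.Injective f := by
    intro x x' hx
    have : ∀ y, (β p (x / x') y) ^ 2 = 1 := by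
      intro y
      have h := DFunLike.congr_fun hx y
      change (β p x y) ^ 2 = (β p x' y) ^ 2 at h
      rw [map_div, MonoidHom.div_apply, div_pow, h, div_self']
    have h0 := b_nondeg p hp.out (Multiplicative.toAdd (x / x')) (fun y =>
      sq_eq_one p h2 (x / x') (Multiplicative.ofAdd y) (this _))
    have : x / x' = 1 := h0
    exact div_eq_one.1 this
  have hfin : Finite (Multiplicative (A p) →* Circle) := by
    apply Nat.finite_of_card_ne_zero
    rw [card_chars]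
    exact Nat.card_pos.ne'
  have hbij : Function.Bijective f :=
    (Nat.bijective_iff_injective_and_card f).2 ⟨hinj, (card_chars p).symm⟩
  obtain ⟨x, hx⟩ := hbij.2 χ
  exact ⟨x, fun y => by rw [← hx]; rfl⟩

/-- the index set: odd primes -/
abbrev OddPrime : Type := {p : ℕ // p.Prime ∧ p ≠ 2}

instance (i : OddPrime) : Fact i.1.Prime := ⟨i.2.1⟩

theorem oddPrime_infinite : Infinite OddPrime := by
  have h : {p : ℕ | p.Prime}.Infinite := Nat.infinite_setOfPred_prime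
  have h2 : ({p : ℕ | p.Prime} \ {2}).Infinite := h.sdiff (Set.finite_singleton 2)
  have h3 : ({p : ℕ | p.Prime} \ {2}) = {p : ℕ | p.Prime ∧ p ≠ 2} := by
    ext p; simp
  rw [h3] at h2
  exact h2.to_subtype

/-- the concrete data -/
noncomputable def D : Data where
  ι := OddPrime
  K i := Multiplicative (A i.1)
  grp _ := inferInstance
  top _ := inferInstance
  disc _ := inferInstance
  fin i := inferInstanceAs (Finite (A i.1))
  L i := AddSubgroup.toSubgroup (L i.1).toAddSubgroup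
  β i := β i.1
  alt i x := one_of_zero i.1 x x (b_alt _ _)
  iso i x hx y hy := one_of_zero i.1 x y (L_iso _ _ _ hx hy)
  nondeg i x h := b_nondeg i.1 i.2.1 (Multiplicative.toAdd x) (fun y =>
      sq_eq_one i.1 i.2.2 x (Multiplicative.ofAdd y) (h _))
  perp i x h := L_perp i.1 i.2.1 (Multiplicative.toAdd x)
    (sq_eq_one i.1 i.2.2 x (Multiplicative.ofAdd (e2 i.1)) (h _ (e2_mem _)))
    (sq_eq_one i.1 i.2.2 x (Multiplicative.ofAdd (e3 i.1)) (h _ (e3_mem _)))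
    (sq_eq_one i.1 i.2.2 x (Multiplicative.ofAdd (e4 i.1)) (h _ (e4_mem _)))
  surj i := β_surj i.1 i.2.2
  inf := oddPrime_infinite
  e i := i.1 ^ 8
  cop i k hik := by
    apply Nat.Coprime.pow
    exact (Nat.coprime_primes i.2.1 k.2.1).2 (fun h => hik (Subtype.ext h))
  tors i x := by
    obtain ⟨x1, x2, x3, x4, hx⟩ := v_surj i.1 (Multiplicative.toAdd x)
    have h4 := ZMod.natCast_self (i.1 ^ 4)
    have h8 := ZMod.natCast_self (i.1 ^ 8)
    push_cast at h4 h8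
    have h84 : ((i.1 : ZMod (i.1 ^ 4)) ^ 8) = 0 := by
      rw [show (8 : ℕ) = 4 + 4 from rfl, pow_add, h4, zero_mul]
    have : ((i.1 ^ 8 : ℕ) : ℤ) • Multiplicative.toAdd x = 0 := by
      rw [hx, v_smul]
      unfold v
      ext <;> push_cast
      · rw [h84, zero_mul]; rfl
      · rw [h84, zero_mul]; rfl
      · rw [h8, zero_mul]; rfl
      · rw [h8, zero_mul]; rfl
    rw [natCast_zsmul] at this
    exact this
  nonsplit i π hL hid h1 h2 := by
    refine nonsplit' i.1 i.2.1 (AddMonoidHom.mk' (fun a => Multiplicative.toAdd (π (Multiplicative.ofAdd a)))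
      (fun a a' => by rw [ofAdd_add, map_mul, toAdd_mul])) ?_ ?_ ?_ ?_
    · intro x hx
      exact hL (Multiplicative.ofAdd x) hx
    · intro x
      exact hid (Multiplicative.ofAdd x)
    · intro x y
      exact sq_eq_one i.1 i.2.2 _ _ (h1 (Multiplicative.ofAdd x) (Multiplicative.ofAdd y))
    · intro x y
      exact sq_eq_one i.1 i.2.2 _ _ (h2 (Multiplicative.ofAdd x) (Multiplicative.ofAdd y))

end Pool.Q21.MU.F
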