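import Pool.Agent.Q21.MU.Grp

set_option autoImplicit false

namespace Pool.Q21.MU

open scoped commutatorElement

variable {D : Data}

/-- the center is the circle -/
noncomputable def cIso : Subgroup.center (Gp D) ≃ₜ* Circle where
  toFun g := g.1.t
  invFun t := ⟨⟨t, 1⟩, (Gp.mem_center _).2 rfl⟩
  left_inv g := Subtype.ext (Gp.ext rfl ((Gp.mem_center _).1 g.2).symm)
  right_inv t := rfl
  map_mul' g h := by
    show g.1.t * h.1.t * pr g.1.x h.1.x = _
    rw [(Gp.mem_center _).1 g.2, pr_one_left, mul_one]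
  continuous_toFun := Gp.cont_t.comp continuous_subtype_val
  continuous_invFun := (Gp.cont_mk continuous_id continuous_const).subtype_mk _

/-- the projection -/
noncomputable def xHom : Gp D →* RP D where
  toFun := Gp.x
  map_one' := rfl
  map_mul' _ _ := rfl

/-- the quotient by the center -/
noncomputable def qIso : (Gp D ⧸ Subgroup.center (Gp D)) ≃ₜ* RP D where
  toFun := QuotientGroup.lift (Subgroup.center (Gp D)) xHom (fun g hg => (Gp.mem_center g).1 hg)
  invFun x := ((⟨1, x⟩ : Gp D) : Gp D ⧸ Subgroup.center (Gp D))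
  left_inv := by
    intro z
    induction z using QuotientGroup.induction_on with
    | H g =>
      show ((⟨1, g.x⟩ : Gp D) : Gp D ⧸ Subgroup.center (Gp D)) = g
      rw [QuotientGroup.eq, Gp.mem_center]
      show g.x⁻¹ * g.x = 1
      exact inv_mul_cancel _
  right_inv := fun x => rfl
  map_mul' := map_mul _
  continuous_toFun := by
    have h : Topology.IsQuotientMap (QuotientGroup.mk : Gp D → Gp D ⧸ Subgroup.center (Gp D)) :=
      QuotientGroup.isQuotientMap_mk _
    exact h.continuous_iff.2 Gp.cont_x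
  continuous_invFun := QuotientGroup.continuous_mk.comp (Gp.cont_mk continuous_const continuous_id)

theorem qIso_mk (g : Gp D) : qIso (g : Gp D ⧸ Subgroup.center (Gp D)) = g.x := rfl

/-- dual isomorphisms -/
noncomputable def dualIso {A B : Type*} [Monoid A] [Monoid B] [TopologicalSpace A] [TopologicalSpace B]
    (q : A ≃ₜ* B) : PontryaginDual B ≃ₜ* PontryaginDual A where
  toFun := PontryaginDual.map ⟨q.toMulEquiv.toMonoidHom, q.continuous_toFun⟩
  invFun := PontryaginDual.map ⟨q.symm.toMulEquiv.toMonoidHom, q.symm.continuous_toFun⟩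
  left_inv χ := by
    apply PontryaginDual.ext
    intro a
    rw [PontryaginDual.map_apply, PontryaginDual.map_apply]
    exact congrArg χ (q.apply_symm_apply a)
  right_inv χ := by
    apply PontryaginDual.ext
    intro a
    rw [PontryaginDual.map_apply, PontryaginDual.map_apply]
    exact congrArg χ (q.symm_apply_apply a)
  map_mul' := map_mul _
  continuous_toFun := (PontryaginDual.map ⟨q.toMulEquiv.toMonoidHom, q.continuous_toFun⟩).continuous_toFun
  continuous_invFun := (PontryaginDual.map ⟨q.symm.toMulEquiv.toMonoidHom, q.symm.continuous_toFun⟩).continuous_toFun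

theorem dualIso_apply {A B : Type*} [Monoid A] [Monoid B] [TopologicalSpace A] [TopologicalSpace B]
    (q : A ≃ₜ* B) (χ : PontryaginDual B) (a : A) : dualIso q χ a = χ (q a) := rfl

/-- postcomposition with a map of the circle -/
noncomputable def post {A : Type*} [Monoid A] [TopologicalSpace A] (ρ : Circle →ₜ* Circle) :
    PontryaginDual A →ₜ* PontryaginDual A :=
  ContinuousMonoidHom.compRight A ρ

theorem post_apply {A : Type*} [Monoid A] [TopologicalSpace A] (ρ : Circle →ₜ* Circle)
    (χ : PontryaginDual A) (a : A) : post ρ χ a = ρ (χ a) := rfl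

/-- postcomposition with an automorphism of the circle -/
noncomputable def postIso {A : Type*} [Monoid A] [TopologicalSpace A] (ρ : Circle ≃ₜ* Circle) :
    PontryaginDual A ≃ₜ* PontryaginDual A where
  toFun := post ⟨ρ.toMulEquiv.toMonoidHom, ρ.continuous_toFun⟩
  invFun := post ⟨ρ.symm.toMulEquiv.toMonoidHom, ρ.symm.continuous_toFun⟩
  left_inv χ := by
    apply PontryaginDual.ext
    intro a
    rw [post_apply, post_apply]
    exact ρ.symm_apply_apply _
  right_inv χ := by
    apply PontryaginDual.ext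
    intro a
    rw [post_apply, post_apply]
    exact ρ.apply_symm_apply _
  map_mul' := map_mul _
  continuous_toFun := (post ⟨ρ.toMulEquiv.toMonoidHom, ρ.continuous_toFun⟩).continuous_toFun
  continuous_invFun := (post ⟨ρ.symm.toMulEquiv.toMonoidHom, ρ.symm.continuous_toFun⟩).continuous_toFun

theorem postIso_apply {A : Type*} [Monoid A] [TopologicalSpace A] (ρ : Circle ≃ₜ* Circle)
    (χ : PontryaginDual A) (a : A) : postIso ρ χ a = ρ (χ a) := rfl

theorem comm_mem (x y : Gp D) : ⁅x, y⁆ ∈ Subgroup.center (Gp D) := by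
  rw [Gp.comm_def, Gp.mem_center]

/-- the Mumford isomorphism -/
theorem mumford (ι : Subgroup.center (Gp D) ≃ₜ* Circle) :
    ∃ M : (Gp D ⧸ Subgroup.center (Gp D)) ≃ₜ* PontryaginDual (Gp D ⧸ Subgroup.center (Gp D)),
      ∀ x y : Gp D, M (x : Gp D ⧸ Subgroup.center (Gp D)) (y : Gp D ⧸ Subgroup.center (Gp D)) =
        ι ⟨⁅x, y⁆, comm_mem x y⟩ := by
  refine ⟨qIso.trans (Mequiv.trans ((dualIso qIso).trans (postIso (cIso.symm.trans ι)))), fun x y => ?_⟩
  show (cIso.symm.trans ι) (M0 x.x y.x) = _
  rw [M0_apply]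
  show ι (cIso.symm ((pr x.x y.x) ^ 2)) = _
  congr 1
  apply Subtype.ext
  show (⟨(pr x.x y.x) ^ 2, 1⟩ : Gp D) = ⁅x, y⁆
  rw [Gp.comm_def]

end Pool.Q21.MU
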